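import Mathlib
import Pool.Agent.TH118.ZC.Fib

/-!
# The Mumford-Tate conjecture for the second cohomology of products with abelian varieties

Let `A` be an abelian variety and `Y` a smooth projective variety (possibly a point) over a field `k`
finitely generated over `ℚ`, and `X = A × Y`, or any variety such that the motive of `H^2(X)(1)` belongs to
the tensor category generated by `H_1(A)`, `H^1(Y)`, `H^2(Y)` and `ℚ(1)`: for instance `A` itself,
a Kummer variety of `A`, the surface of lines on a cubic threefold with intermediate jacobian `A`, the
square or the symmetric square of a curve with jacobian `A`, and the products of these with `Y`.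

Let `K` be the algebraic closure of `ℚ_ℓ`, `M = K ⊗ H_1(A)`, `N = K ⊗ (H^1(Y) ⊕ H^2(Y)(1) ⊕ ℚ(1) ⊕ ℚ(-1))`,
`U = K ⊗ H^2(X)(1)`, with the actions `R`, `S`, `σ` of the Galois group `Γ` of `k`, `ω` the Weil
pairing on `M` given by a polarization, `χ` the cyclotomic character.  The characters `χ` and `χ⁻¹`
are entries of `S`; `c` is the polynomial in the entries with `c(S(g)) = χ(g)`.  Since
`H^2(X)(1) = H^2(A)(1) ⊕ (H^1(A) ⊗ H^1(Y))(1) ⊕ H^2(Y)(1)` and the dual of `R(g)` is `χ(g)⁻¹` times the
adjoint of `R(g)` for `ω`, the entries of `σ(g)` are polynomials in the entries of `R(g)` and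
`S(g)` (`IsPolynomialMap`); the same polynomials describe the action of the Mumford-Tate group.

Let `𝒢` be the set of the `K`-valued points of the Mumford-Tate group of
`H_1(A) ⊕ H^1(Y) ⊕ H^2(Y)(1) ⊕ ℚ(1) ⊕ ℚ(-1)`, as pairs of operators on `M` and `N`.

Hypotheses.

* `hirr`: `M` is irreducible for all subgroups of finite index; by the theorem of Faltings this means
  that all endomorphisms of `A` over the algebraic closure of `k` are integers.
* `hin`: there is an element `γ` of `Γ` (in applications: of the inertia group at a place which does
  not divide `ℓ`, where `A` has potentially good and `Y` has good reduction) which acts trivially on `N`,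
  and with finite order on `M` in one of two ways.
  (`SmallAt`) It has an eigenvalue `a` with `a ^ 2 = χ(γ)` and another eigenvalue, all eigenvalues
  different from `a` are simple, and `c ^ 2 < 2 d`, where `d` is the dimension of the eigenspace for `a` and
  `c` is its codimension.
  (`SplitsIsolated`) The eigenvalues are divided into two nonempty sets, both stable under
  `α ↦ χ(γ) / α`, such that for `α` in the first and `β` in the second one `α` or `β` is simple,
  `β / α` is the quotient of no other pair of eigenvalues except the dual pair, and triples
  `α', α' (β / α), α' (β / α) ^ 2` of eigenvalues are self-dual with simple outer eigenvalues.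
* `hhyp`: some element has two eigenvalues on `M` whose quotient is not a root of unity.
* `h1`: the image of the subgroup `Δ` of finite index is contained in the Mumford-Tate group.
  This is known if `Y` is a point, an abelian variety, a K3 surface, or a variety such that
  the Hodge classes on the products of powers of `A` and `Y` are absolute Hodge (Deligne).
* `h2`: the projection of the Mumford-Tate group to the factor `N` is contained in the Zariski closure
  of the image of `Δ`: the Mumford-Tate conjecture holds for `N`.  This is known if `Y` is a point
  (then the closure consists of all pairs `(c, c⁻¹)`, since `χ` takes infinitely many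
  values), and if `Y` is a K3 surface.  And the polarization `ω` is a Hodge class.

Theorem.  The Zariski closures of the image of `Δ` and of the Mumford-Tate group in `GL(U)` are
equal: the Mumford-Tate conjecture holds for `H^2(X)`.  (The group schemes over `ℤ_ℓ` in the question
are the closures of their generic fibres, so that it is enough to compare these, and it
can be done over `K`.)

So the Mumford-Tate conjecture holds for `H^2(X)` for `X = A` and the other examples above if
`A` is as in `hirr`, `hin`, and for `X = A × Y`, `Y` a K3 surface with good reduction at the same place.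
For instance `A` is the jacobian of a curve, with endomorphism ring `ℤ`, which has at a place `v` a
regular model whose special fibre has one singular point, of type `A_{2m}`, `m` less than the
genus, the residue characteristic being prime to `2 (2 m + 1)`.

The proof.  By the theorem on sums (`MP_09799c_ag.ProductPoints`) the Zariski closure of the image in
`GL(M) × GL(N)` contains `Sp(M) × 1`.  Here it is shown that it is the fibre product of the group of the
similitudes of `M` and of the closure of the image in `GL(N)`: on the elements `(z s, y)`, `s` in
`Sp(M)`, `z ^ 2 = c(y)`, a polynomial takes the values `E(y) + z O(y)`, and `E`, `O` vanish on the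
image if the polynomial vanishes on the image.
-/

namespace Pool.Agent.Results.MP_6369ef_ag.ProductsWithAbelianVarieties

open Module Pool.Agent.W522.U Pool.Agent.TH118.ZC

theorem result {K : Type} [Field K] [CharZero K] [IsAlgClosed K]
    {M : Type} [AddCommGroup M] [Module K M] [FiniteDimensional K M]
    {N : Type} [AddCommGroup N] [Module K N] [FiniteDimensional K N]
    {Γ : Type} [Group Γ] (R : Representation K Γ M) (S : Representation K Γ N) (χ : Γ →* K)
    (ω : M →ₗ[K] M →ₗ[K] K) (halt : ∀ v, ω v v = 0) (hnondeg : ∀ u, (∀ v, ω u v = 0) → u = 0)
    (hω : ∀ g u v, ω (R g u) (R g v) = χ g * ω u v) (hirr : SI R (⊤ : Submodule K M))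
    (hin : ∃ γ : Γ, (∃ k : ℕ, 0 < k ∧ R γ ^ k = 1) ∧ S γ = 1 ∧
      (SmallAt R χ γ ∨ SplitsIsolated R χ γ))
    (hhyp : HasHyperbolic R)
    {ι κ μ : Type} [Fintype ι] [Fintype κ] [Fintype μ] (b : Basis ι K (M × N)) (bN : Basis κ K N)
    (Δ : Subgroup Γ) (hΔ : Δ.FiniteIndex)
    -- the multiplier as a polynomial on the second factor
    (c : MvPolynomial (κ × κ) K) (hc : ∀ g ∈ Δ, ev bN c (S g) = χ g)
    -- the Mumford-Tate group
    (𝒢 : Set (End K M × End K N)) (h1 : ∀ g ∈ Δ, (R g, S g) ∈ 𝒢)
    (h2 : ∀ x ∈ 𝒢, x.2 ∈ zariskiClosure bN (S '' Δ) ∧ ev bN c x.2 ≠ 0 ∧
      ∀ u v, ω (x.1 u) (x.1 v) = ev bN c x.2 * ω u v)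
    -- the second cohomology of `X`
    {U : Type} [AddCommGroup U] [Module K U] (bU : Basis μ K U) (σ : Representation K Γ U)
    (r : End K (M × N) → End K U) (hr : IsPolynomialMap b bU r)
    (hσ : ∀ g ∈ Δ, σ g = r ((R g).prodMap (S g))) :
    zariskiClosure bU (σ '' Δ) = zariskiClosure bU ((fun x => r (x.1.prodMap x.2)) '' 𝒢) :=
  fib_image b halt hnondeg hω hirr hin hhyp hΔ bN c hc h1 h2 bU hr hσ

end Pool.Agent.Results.MP_6369ef_ag.ProductsWithAbelianVarieties
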