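import Mathlib
import Pool.Agent.TH118.OR.Pair

/-!
# The Mumford-Tate conjecture for the second cohomology of varieties with a special degeneration

Let `k` be finitely generated over `ℚ`, `X` and `Y` smooth projective varieties over `k`, `H ^ 1(X) = 0`, so
that `H ^ 2(X × Y)(1) = H ^ 2(X)(1) ⊕ H ^ 2(Y)(1)` (`Y` may be a point).  Let `K` be the algebraic closure
of `ℚ_ℓ`, `M` the orthogonal complement of the classes of divisors in `H ^ 2(X)(1)`, tensored with
`K`, with its symmetric form `ω` (given by a polarization), and `N` the direct sum of the space of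
the classes of divisors on `X` and of `H ^ 2(Y)(1)`, tensored with `K`.  After a finite extension of `k`
the Galois group acts on `M` with determinant one and trivially on the classes of divisors on `X`.

Let `Γ` be a group acting on `M` and `N`, by `R` and `S`: the Galois group of `k` (*arithmetic case*), or,
if `k` is the function field of a variety `V` over a number field and `X` and `Y` are the generic
fibres of families over `V`, the geometric fundamental group of `V` (*generic case*).  Suppose that

* `M` is irreducible for all subgroups of finite index of `Γ`;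
* there is an element `γ` of `Γ` (an element of an inertia group, or a loop around a divisor at the
  boundary of `V`) acting trivially on `N`, which acts on `M` in one of two ways:
  (`BlockThreeAt`) as a unipotent map with one Jordan block of size three and all others of
  size one; or
  (`TwoSimpleAt`) with finite order, with an eigenspace of codimension two for an eigenvalue `a`,
  `a ^ 2 = 1`, and with two other, different eigenvalues `α` and `β`, `α β = 1`; here we suppose that the
  dimension of `M` is at least five and that some element of `Γ` has two eigenvalues on `M` whose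
  quotient is not a root of unity (this is automatic in both cases).

Let `𝒜` be the image of the Galois group of `k^conn` in the pairs of operators on `M` and `N`, and `ℬ` the
group of the `K`-valued points of the Mumford-Tate group `𝐆` of `H ^ 2(X × Y)(1)`.  Both consist
of pairs `(x, y)` where `x` is an isometry of determinant one, `𝒜` contains the image of a subgroup
`Δ` of finite index of `Γ`, and in the generic case `ℬ` does, too (Deligne, André).  If Q1 holds for `Y`,
the sets of the second components of the elements of `𝒜` and `ℬ` have the same Zariski closure.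

Theorem.  Suppose that Q1 holds for `H ^ 2(Y)` and `ℓ` (for instance, `Y` is a point, or a K3 surface, or an
abelian variety for which the Mumford-Tate conjecture is known).

* In the arithmetic case `G_{k^conn, ℓ}` is `SO(M) × G_{k^conn, ℓ}(Y)`, and it contains
  `𝐆_{ℤ_ℓ}`: one half of Q1 holds for `X × Y` and `ℓ`.  The other half is equivalent to
  `𝐆_ℚ = SO(T(X)) × 𝐆_ℚ(Y)`, `T(X)` the transcendental part of `H ^ 2(X)(1)`.
* In the generic case Q1 holds for `X × Y` and `ℓ`.

With `Y` a point this gives Q1 for the generic members `X` of the families of surfaces (or of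
varieties with `H ^ 1 = 0`) with one fibre with only one singular point, of type `A_2`, where the
total space is smooth, or of a fibre of type III with a monodromy logarithm of rank two (a cusp
singularity), if the monodromy is strongly irreducible; here `p_g(X)` is arbitrary.  If the families
have nodal fibres this is well known, by the theorem on groups generated by reflections.  For
`p_g = 1` Q1 was proved by Tankeev, André and Moonen.
-/

namespace Pool.Agent.Results.MP_6369ef_ag.SpecialDegenerations

open Module Pool.Agent.W522.U Pool.Agent.TH118.ZC Pool.Agent.TH118.OR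

/-- **The closures of the Galois image and of the Mumford-Tate group.** -/
theorem result {K : Type} [Field K] [CharZero K] [IsAlgClosed K]
    {M : Type} [AddCommGroup M] [Module K M] [FiniteDimensional K M]
    {N : Type} [AddCommGroup N] [Module K N] [FiniteDimensional K N]
    {Γ : Type} [Group Γ] (R : Representation K Γ M) (S : Representation K Γ N)
    (ω : M →ₗ[K] M →ₗ[K] K) (hsymm : ∀ u v, ω u v = ω v u)
    (hnondeg : ∀ u, (∀ v, ω u v = 0) → u = 0)
    (hω : ∀ g u v, ω (R g u) (R g v) = ω u v) (hirr : SI R (⊤ : Submodule K M))
    (hin : ∃ γ : Γ, S γ = 1 ∧ (BlockThreeAt R 1 γ ∨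
      (TwoSimpleAt R 1 γ ∧ 5 ≤ finrank K M ∧ HasHyperbolic R)))
    {ι κ : Type} [Fintype ι] [Fintype κ] (b : Basis ι K (M × N)) (bN : Basis κ K N)
    (Δ : Subgroup Γ) (hΔ : Δ.FiniteIndex)
    -- the image of the Galois group
    (𝒜 : Submonoid (End K M × End K N)) (h1 : ∀ g ∈ Δ, (R g, S g) ∈ 𝒜)
    (h2 : ∀ x ∈ 𝒜, (∀ u v, ω (x.1 u) (x.1 v) = ω u v) ∧ LinearMap.det x.1 = 1)
    -- the Mumford-Tate group
    (ℬ : Submonoid (End K M × End K N))
    (h3 : ∀ x ∈ ℬ, (∀ u v, ω (x.1 u) (x.1 v) = ω u v) ∧ LinearMap.det x.1 = 1)
    (h4 : zariskiClosure bN (Prod.snd '' (ℬ : Set (End K M × End K N))) =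
      zariskiClosure bN (Prod.snd '' (𝒜 : Set (End K M × End K N)))) :
    (∀ (s : End K M) (y : End K N), (∀ u v, ω (s u) (s v) = ω u v) → LinearMap.det s = 1 →
        y ∈ zariskiClosure bN (Prod.snd '' (𝒜 : Set (End K M × End K N))) →
        s.prodMap y ∈ zariskiClosure b
          ((fun x => x.1.prodMap x.2) '' (𝒜 : Set (End K M × End K N)))) ∧
      zariskiClosure b ((fun x => x.1.prodMap x.2) '' (ℬ : Set (End K M × End K N))) ⊆
        zariskiClosure b ((fun x => x.1.prodMap x.2) '' (𝒜 : Set (End K M × End K N))) ∧
      ((∀ g ∈ Δ, (R g, S g) ∈ ℬ) →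
        zariskiClosure b ((fun x => x.1.prodMap x.2) '' (ℬ : Set (End K M × End K N))) =
          zariskiClosure b ((fun x => x.1.prodMap x.2) '' (𝒜 : Set (End K M × End K N)))) := by
  have hω' : ∀ g u v, ω (R g u) (R g v) = (1 : Γ →* K) g * ω u v := by
    intro g u v
    rw [hω, MonoidHom.one_apply, one_mul]
  have hall : ∀ (D : ℕ) (x y : M), Pool.Agent.TH125.Gal.wg ω x y ∈ LM R S ω b D := by
    intro D x y
    obtain ⟨γ, hS, h | ⟨h, h5, hF⟩⟩ := hin
    · exact sum_three b hsymm hnondeg hω' hirr hS h D x y
    · exact sum_two b hsymm hnondeg hω' hirr h5 hS h hF D x y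
  have hso : ∀ s : End K M, (∀ x y, ω (s x) (s y) = ω x y) → LinearMap.det s = 1 →
      s.prodMap (1 : End K N) ∈ clM b (dsum R S) Δ :=
    fun s hs hdet => so_sum b hsymm hnondeg hall hΔ hs hdet
  have h5 := pair_closure b hnondeg hso bN 𝒜 h1 h2 ℬ h3 ((subset_zc bN _).trans h4.subset)
  refine ⟨fun s y hs hdet hy => pair_prod b hnondeg hso bN 𝒜 h1 h2 hs hdet hy, h5, fun h6 => ?_⟩
  exact le_antisymm h5
    (pair_closure b hnondeg hso bN ℬ h6 h3 𝒜 h2 ((subset_zc bN _).trans h4.symm.subset))

end Pool.Agent.Results.MP_6369ef_ag.SpecialDegenerations
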